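import Pool.Agent.W523.LV.Stmts

/-!
# Coercive forms on polynomials (task LV-LINA, helper193)
-/

set_option autoImplicit false

open Finset Polynomial

namespace Pool.Agent.W193.LV

open Pool.Agent.W523.LV

theorem nm_nonneg (K : ℕ) (q : ℝ[X]) : 0 ≤ nm K q := Finset.sum_nonneg fun _ _ => abs_nonneg _

theorem nm_add (K : ℕ) (p q : ℝ[X]) : nm K (p + q) ≤ nm K p + nm K q := by
  unfold nm
  rw [← Finset.sum_add_distrib]
  refine Finset.sum_le_sum fun i _ => ?_
  rw [coeff_add]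
  exact abs_add_le _ _

theorem nm_sum (K : ℕ) {ι : Type*} (s : Finset ι) (f : ι → ℝ[X]) :
    nm K (∑ i ∈ s, f i) ≤ ∑ i ∈ s, nm K (f i) := by
  classical
  induction s using Finset.induction_on with
  | empty => simp [nm]
  | insert a s ha ih =>
    rw [Finset.sum_insert ha, Finset.sum_insert ha]
    exact (nm_add K _ _).trans (by linarith)

theorem nm_C_mul (K : ℕ) (c : ℝ) (p : ℝ[X]) : nm K (C c * p) = |c| * nm K p := by
  unfold nm
  rw [Finset.mul_sum]
  refine Finset.sum_congr rfl fun i _ => ?_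
  rw [coeff_C_mul, abs_mul]

theorem nm_X_mul (K : ℕ) (p : ℝ[X]) : nm K (X * p) ≤ nm K p := by
  unfold nm
  cases K with
  | zero => simp
  | succ K =>
    rw [Finset.sum_range_succ', Finset.sum_range_succ (fun i => |p.coeff i|)]
    have h0 : (X * p).coeff 0 = 0 := by simp
    have h1 : ∀ i, (X * p).coeff (i + 1) = p.coeff i := fun i => coeff_X_mul p i
    simp only [h0, h1, abs_zero, add_zero]
    exact le_add_of_nonneg_right (abs_nonneg _)

theorem nm_div (K : ℕ) {x y δ : ℝ} (hδ : 0 < δ) (hxy : δ ≤ |x - y|) (hy : |y| ≤ 1) (p : ℝ[X]) :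
    nm K (Lagrange.basisDivisor x y * p) ≤ 2 / δ * nm K p := by
  have e : Lagrange.basisDivisor x y * p = C (x - y)⁻¹ * (X * p + C (-y) * p) := by
    unfold Lagrange.basisDivisor
    rw [C_neg]
    ring
  rw [e, nm_C_mul, abs_inv]
  have h1 : nm K (X * p + C (-y) * p) ≤ 2 * nm K p := by
    refine (nm_add K _ _).trans ?_
    rw [nm_C_mul, abs_neg]
    have h2 := nm_X_mul K p
    have h3 := mul_le_mul_of_nonneg_right hy (nm_nonneg K p)
    linarith
  have h4 : |x - y|⁻¹ ≤ δ⁻¹ := inv_anti₀ hδ hxy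
  calc |x - y|⁻¹ * nm K (X * p + C (-y) * p) ≤ δ⁻¹ * (2 * nm K p) :=
        mul_le_mul h4 h1 (nm_nonneg K _) (inv_nonneg.2 hδ.le)
    _ = 2 / δ * nm K p := by ring

theorem nm_prod (K : ℕ) {ι : Type*} (s : Finset ι) (x : ℝ) (v : ι → ℝ) {δ : ℝ} (hδ : 0 < δ)
    (h : ∀ j ∈ s, δ ≤ |x - v j|) (hv : ∀ j ∈ s, |v j| ≤ 1) :
    nm K (∏ j ∈ s, Lagrange.basisDivisor x (v j)) ≤ (2 / δ) ^ s.card := by
  classical
  induction s using Finset.induction_on with
  | empty =>
    rw [Finset.prod_empty, Finset.card_empty, pow_zero]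
    unfold nm
    calc ∑ i ∈ range K, |(1 : ℝ[X]).coeff i| = ∑ i ∈ range K, if i = 0 then 1 else 0 := by
          refine Finset.sum_congr rfl fun i _ => ?_
          rw [coeff_one]
          split_ifs <;> simp
      _ ≤ 1 := by
          rw [Finset.sum_ite_eq']
          split_ifs <;> norm_num
  | insert a s ha ih =>
    rw [Finset.prod_insert ha, Finset.card_insert_of_notMem ha, pow_succ]
    refine (nm_div K hδ (h a (mem_insert_self _ _)) (hv a (mem_insert_self _ _)) _).trans ?_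
    rw [mul_comm]
    exact mul_le_mul_of_nonneg_right (ih (fun j hj => h j (mem_insert_of_mem hj))
      (fun j hj => hv j (mem_insert_of_mem hj))) (by positivity)

theorem nm_lagrange (K : ℕ) (v : ℕ → ℝ) {δ : ℝ} (hδ : 0 < δ) (hδ1 : δ ≤ 1)
    (h : ∀ i < K, ∀ j < K, i ≠ j → δ ≤ |v i - v j|) (hv : ∀ j < K, |v j| ≤ 1) (r : ℝ[X])
    (hr : r.degree < K) : nm K r ≤ (2 / δ) ^ K * ∑ i ∈ range K, |r.eval (v i)| := by
  have hinj : Set.InjOn v (range K : Finset ℕ) := by
    intro i hi j hj hij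
    by_contra hne
    have := h i (mem_range.1 hi) j (mem_range.1 hj) hne
    rw [hij, sub_self, abs_zero] at this
    linarith
  have e := Lagrange.eq_interpolate (f := r) hinj (by rw [card_range]; exact hr)
  have e2 : nm K r = nm K (∑ i ∈ range K, C (r.eval (v i)) * Lagrange.basis (range K) v i) := by
    conv_lhs => rw [e]
    rw [Lagrange.interpolate_apply]
  rw [e2, Finset.mul_sum]
  refine (nm_sum K _ _).trans (Finset.sum_le_sum fun i hi => ?_)
  rw [nm_C_mul, mul_comm]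
  refine mul_le_mul_of_nonneg_right ?_ (abs_nonneg _)
  unfold Lagrange.basis
  refine (nm_prod K ((range K).erase i) (v i) v hδ (fun j hj => ?_) (fun j hj => ?_)).trans ?_
  · rw [mem_erase, mem_range] at hj
    exact h i (mem_range.1 hi) j hj.2 hj.1.symm
  · rw [mem_erase, mem_range] at hj
    exact hv j hj.2
  · refine pow_le_pow_right₀ ?_ ?_
    · rw [le_div_iff₀ hδ]
      linarith
    · refine (card_le_card (erase_subset _ _)).trans ?_
      rw [card_range]

theorem coer (K : ℕ) (hK : 1 ≤ K) (S : Finset ℕ) (t ω W : ℕ → ℝ)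
    (ht : ∀ n ∈ S, 0 ≤ t n ∧ t n ≤ 1) (hω : ∀ n ∈ S, 0 ≤ ω n) (hW : ∀ n ∈ S, 0 ≤ W n ∧ W n ≤ 1)
    (hG : ∀ i : ℕ, i < 2 * K → 1 / (32 * (K : ℝ)) ≤
      ∑ n ∈ S.filter (fun n => (i : ℝ) / (2 * K) ≤ t n ∧ t n ≤ ((i : ℝ) + 1) / (2 * K) ∧
        1 / 2 ≤ W n), ω n) (r : ℝ[X]) (hr : r.degree < K) :
    nm K r ^ 2 ≤ 64 * (K : ℝ) ^ 2 * ((4 * K) ^ K) ^ 2 *
      ∑ n ∈ S, ω n * W n * r.eval (t n) * r.eval (t n) := by
  classical
  have hK0 : (0 : ℝ) < K := by exact_mod_cast hK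
  let G : ℕ → Finset ℕ := fun k => S.filter (fun n => ((2 * k : ℕ) : ℝ) / (2 * K) ≤ t n ∧
    t n ≤ (((2 * k : ℕ) : ℝ) + 1) / (2 * K) ∧ 1 / 2 ≤ W n)
  have hGs : ∀ k < K, 1 / (32 * (K : ℝ)) ≤ ∑ n ∈ G k, ω n := fun k hk => hG (2 * k) (by omega)
  have hGmem : ∀ k n, n ∈ G k → n ∈ S ∧ (2 * (k : ℝ)) / (2 * K) ≤ t n ∧
      t n ≤ (2 * (k : ℝ) + 1) / (2 * K) ∧ 1 / 2 ≤ W n := by
    intro k n hn
    have := mem_filter.1 hn
    push_cast at this
    exact this
  have hne : ∀ k, k < K → (G k).Nonempty := by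
    intro k hk
    rw [nonempty_iff_ne_empty]
    intro h
    have h1 := hGs k hk
    rw [h, sum_empty] at h1
    have h2 : 0 < 1 / (32 * (K : ℝ)) := by positivity
    linarith
  have hmin : ∀ k, ∃ n, k < K → n ∈ G k ∧ ∀ m ∈ G k, |r.eval (t n)| ≤ |r.eval (t m)| := by
    intro k
    by_cases hk : k < K
    · obtain ⟨n, hn, hm⟩ := exists_min_image (G k) (fun n => |r.eval (t n)|) (hne k hk)
      exact ⟨n, fun _ => ⟨hn, hm⟩⟩
    · exact ⟨0, fun h => absurd h hk⟩
  choose N hN using hmin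
  have hv1 : ∀ k < K, (2 * (k : ℝ)) / (2 * K) ≤ t (N k) ∧ t (N k) ≤ (2 * (k : ℝ) + 1) / (2 * K) := by
    intro k hk
    have := hGmem k _ (hN k hk).1
    exact ⟨this.2.1, this.2.2.1⟩
  have hlt : ∀ i < K, ∀ j < K, i < j → 1 / (2 * (K : ℝ)) ≤ t (N j) - t (N i) := by
    intro i hi j hj hij
    have h1 := (hv1 i hi).2
    have h2 := (hv1 j hj).1
    have h3 : (i : ℝ) + 1 ≤ j := by exact_mod_cast hij
    have h4 : (2 * (i : ℝ) + 1) / (2 * K) + 1 / (2 * (K : ℝ)) ≤ (2 * (j : ℝ)) / (2 * K) := by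
      rw [← add_div]
      exact div_le_div_of_nonneg_right (by linarith) (by positivity)
    linarith
  have hsep : ∀ i < K, ∀ j < K, i ≠ j → 1 / (2 * (K : ℝ)) ≤ |t (N i) - t (N j)| := by
    intro i hi j hj hij
    rcases lt_or_gt_of_ne hij with h | h
    · rw [abs_sub_comm]
      exact (hlt i hi j hj h).trans (le_abs_self _)
    · exact (hlt j hj i hi h).trans (le_abs_self _)
  have hv : ∀ j < K, |t (N j)| ≤ 1 := by
    intro j hj
    have := ht _ (hGmem j _ (hN j hj).1).1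
    rw [abs_of_nonneg this.1]
    exact this.2
  have hδ1 : 1 / (2 * (K : ℝ)) ≤ 1 := by
    rw [div_le_one (by positivity)]
    have : (1 : ℝ) ≤ K := by exact_mod_cast hK
    linarith
  have hL := nm_lagrange K (fun k => t (N k)) (δ := 1 / (2 * (K : ℝ))) (by positivity) hδ1 hsep hv r hr
  have hd : 2 / (1 / (2 * (K : ℝ))) = 4 * K := by
    field_simp
    ring
  rw [hd] at hL
  have hcs : (∑ i ∈ range K, |r.eval (t (N i))|) ^ 2 ≤
      K * ∑ i ∈ range K, r.eval (t (N i)) ^ 2 := by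
    have := sq_sum_le_card_mul_sum_sq (s := range K) (f := fun i => |r.eval (t (N i))|)
    rw [card_range] at this
    simpa only [sq_abs] using this
  have hcell : ∀ k ∈ range K, r.eval (t (N k)) ^ 2 ≤
      64 * K * ∑ n ∈ G k, ω n * W n * r.eval (t n) * r.eval (t n) := by
    intro k hk
    have hk' := mem_range.1 hk
    have h1 : (∑ n ∈ G k, ω n) * (1 / 2 * r.eval (t (N k)) ^ 2) ≤
        ∑ n ∈ G k, ω n * W n * r.eval (t n) * r.eval (t n) := by
      rw [Finset.sum_mul]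
      refine Finset.sum_le_sum fun n hn => ?_
      obtain ⟨hnS, -, -, hWn⟩ := hGmem k n hn
      have h2 : r.eval (t (N k)) ^ 2 ≤ r.eval (t n) ^ 2 := sq_le_sq.2 ((hN k hk').2 n hn)
      have h3 : 1 / 2 * r.eval (t (N k)) ^ 2 ≤ W n * r.eval (t n) ^ 2 :=
        mul_le_mul hWn h2 (sq_nonneg _) (hW n hnS).1
      calc ω n * (1 / 2 * r.eval (t (N k)) ^ 2) ≤ ω n * (W n * r.eval (t n) ^ 2) :=
            mul_le_mul_of_nonneg_left h3 (hω n hnS)
        _ = ω n * W n * r.eval (t n) * r.eval (t n) := by ring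
    have h4 : 1 / (32 * (K : ℝ)) * (1 / 2 * r.eval (t (N k)) ^ 2) ≤
        (∑ n ∈ G k, ω n) * (1 / 2 * r.eval (t (N k)) ^ 2) :=
      mul_le_mul_of_nonneg_right (hGs k hk') (by positivity)
    have h5 : r.eval (t (N k)) ^ 2 = 64 * K * (1 / (32 * (K : ℝ)) *
        (1 / 2 * r.eval (t (N k)) ^ 2)) := by
      field_simp
      ring
    rw [h5]
    exact mul_le_mul_of_nonneg_left (h4.trans h1) (by positivity)
  have hdisj : ((range K : Finset ℕ) : Set ℕ).PairwiseDisjoint G := by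
    intro i hi j hj hij
    rw [Function.onFun, disjoint_left]
    intro n hn1 hn2
    have a1 := hGmem i n hn1
    have a2 := hGmem j n hn2
    have h2K : (0 : ℝ) < 2 * K := by positivity
    rcases lt_or_gt_of_ne hij with h | h
    · have h3 : (i : ℝ) + 1 ≤ j := by exact_mod_cast h
      have h4 := a2.2.1.trans a1.2.2.1
      rw [div_le_div_iff_of_pos_right h2K] at h4
      linarith
    · have h3 : (j : ℝ) + 1 ≤ i := by exact_mod_cast h
      have h4 := a1.2.1.trans a2.2.2.1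
      rw [div_le_div_iff_of_pos_right h2K] at h4
      linarith
  have hsum : ∑ k ∈ range K, ∑ n ∈ G k, ω n * W n * r.eval (t n) * r.eval (t n) ≤
      ∑ n ∈ S, ω n * W n * r.eval (t n) * r.eval (t n) := by
    rw [← Finset.sum_biUnion hdisj]
    refine Finset.sum_le_sum_of_subset_of_nonneg ?_ ?_
    · intro n hn
      rw [mem_biUnion] at hn
      obtain ⟨k, -, hk⟩ := hn
      exact (hGmem k n hk).1
    · intro n hn _
      rw [mul_assoc]
      exact mul_nonneg (mul_nonneg (hω n hn) (hW n hn).1) (mul_self_nonneg _)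
  have h6 : ∑ i ∈ range K, r.eval (t (N i)) ^ 2 ≤
      64 * K * ∑ n ∈ S, ω n * W n * r.eval (t n) * r.eval (t n) := by
    refine (Finset.sum_le_sum hcell).trans ?_
    rw [← Finset.mul_sum]
    exact mul_le_mul_of_nonneg_left hsum (by positivity)
  calc nm K r ^ 2 ≤ ((4 * K) ^ K * ∑ i ∈ range K, |r.eval (t (N i))|) ^ 2 :=
        pow_le_pow_left₀ (nm_nonneg K r) hL 2
    _ = ((4 * K) ^ K) ^ 2 * (∑ i ∈ range K, |r.eval (t (N i))|) ^ 2 := by rw [mul_pow]
    _ ≤ ((4 * K) ^ K) ^ 2 * (K * (64 * K * ∑ n ∈ S, ω n * W n * r.eval (t n) * r.eval (t n))) :=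
        mul_le_mul_of_nonneg_left (hcs.trans (mul_le_mul_of_nonneg_left h6 hK0.le)) (by positivity)
    _ = 64 * (K : ℝ) ^ 2 * ((4 * K) ^ K) ^ 2 *
        ∑ n ∈ S, ω n * W n * r.eval (t n) * r.eval (t n) := by ring

theorem deg_of {K : ℕ} {q : ℝ[X]} (h : q.natDegree < K) : q.degree < K :=
  degree_le_natDegree.trans_lt (by exact_mod_cast h)

theorem nat_of {K : ℕ} (hK : 1 ≤ K) {q : ℝ[X]} (h : q.degree < K) : q.natDegree < K := by
  by_cases h0 : q = 0
  · rw [h0, natDegree_zero]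
    exact hK
  · exact (natDegree_lt_iff_degree_lt h0).2 h

theorem eq_zero_of_nm {K : ℕ} {r : ℝ[X]} (hr : r.degree < K) (h : nm K r = 0) : r = 0 := by
  ext i
  rw [coeff_zero]
  by_cases hi : i < K
  · have := (Finset.sum_eq_zero_iff_of_nonneg (fun i _ => abs_nonneg (r.coeff i))).1 h i
      (mem_range.2 hi)
    exact abs_eq_zero.1 this
  · exact coeff_eq_zero_of_degree_lt (hr.trans_le (by exact_mod_cast not_lt.1 hi))

theorem taskLina : TaskLina := by
  intro K hK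
  obtain ⟨D, hD⟩ : ∃ D : ℝ, D = 64 * (K : ℝ) ^ 2 * ((4 * K) ^ K) ^ 2 := ⟨_, rfl⟩
  have hK0 : (0 : ℝ) < K := by exact_mod_cast hK
  have hD0 : 0 < D := by rw [hD]; positivity
  refine ⟨1 / (2 * D), 2 * D, by positivity, by positivity, ?_⟩
  intro S t ω W B ℓ lam ht hω hW hG hB hlam hℓ
  have hco : ∀ r : ℝ[X], r.degree < K → nm K r ^ 2 ≤ 2 * D * B r r := by
    intro r hr
    have h1 := coer K hK S t ω W ht hω hW hG r hr
    rw [← hD] at h1
    have h2 := hB r r (nat_of hK hr) (nat_of hK hr)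
    rw [abs_le] at h2
    have h3 : D * (1 / (2 * D) * nm K r * nm K r) = nm K r ^ 2 / 2 := by
      field_simp
    have h4 : D * ∑ n ∈ S, ω n * W n * r.eval (t n) * r.eval (t n) ≤
        D * (B r r + 1 / (2 * D) * nm K r * nm K r) :=
      mul_le_mul_of_nonneg_left (by linarith [h2.1]) hD0.le
    rw [mul_add, h3] at h4
    linarith
  let V := Polynomial.degreeLT ℝ K
  have hfin : Module.Finite ℝ V := Module.Finite.equiv (Polynomial.degreeLTEquiv ℝ K).symm
  let T : V →ₗ[ℝ] Module.Dual ℝ V := B.domRestrict₁₂ V V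
  have hT : ∀ r q : V, T r q = B r q := fun r q => rfl
  have hinj : Function.Injective T := by
    rw [injective_iff_map_eq_zero]
    intro r hr
    have hrd : (r : ℝ[X]).degree < K := mem_degreeLT.1 r.2
    have h1 : B r r = 0 := by
      rw [← hT, hr]
      rfl
    have h2 := hco r hrd
    rw [h1, mul_zero] at h2
    have h3 : nm K (r : ℝ[X]) = 0 := by
      have := sq_nonneg (nm K (r : ℝ[X]))
      exact pow_eq_zero_iff (two_ne_zero) |>.1 (le_antisymm h2 this)
    exact Subtype.ext (eq_zero_of_nm hrd h3)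
  have hsurj : Function.Surjective T :=
    (LinearMap.injective_iff_surjective_of_finrank_eq_finrank
      (Subspace.dual_finrank_eq (K := ℝ) (V := V)).symm).1 hinj
  obtain ⟨r, hr⟩ := hsurj (ℓ.comp V.subtype)
  have hrd : (r : ℝ[X]).degree < K := mem_degreeLT.1 r.2
  have hrq : ∀ q : ℝ[X], q.natDegree < K → B r q = ℓ q := by
    intro q hq
    have h1 : T r ⟨q, mem_degreeLT.2 (deg_of hq)⟩ = ℓ q := by
      rw [hr]
      rfl
    rw [← h1]
    rfl
  refine ⟨r, nat_of hK hrd, ?_, hrq⟩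
  have h1 := hco r hrd
  rw [hrq r (nat_of hK hrd)] at h1
  have h2 : ℓ (r : ℝ[X]) ≤ lam * nm K r := (le_abs_self _).trans (hℓ r (nat_of hK hrd))
  have h3 : nm K (r : ℝ[X]) * nm K (r : ℝ[X]) ≤ (2 * D * lam) * nm K (r : ℝ[X]) := by
    have h4 := mul_le_mul_of_nonneg_left h2 (by positivity : (0 : ℝ) ≤ 2 * D)
    nlinarith
  rcases (nm_nonneg K (r : ℝ[X])).eq_or_lt with h | h
  · rw [← h]
    positivity
  · exact le_of_mul_le_mul_right h3 h

end Pool.Agent.W193.LV
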